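import Pool.Agent.U554.TD.Ser
import Pool.Agent.U554.TD.Cx
import Pool.Agent.U554.TW.Main
import Pool.Agent.U483.GU.HDefs
import Mathlib.Algebra.Category.ModuleCat.Abelian

/-!
# Finite generation of Weil-etale cohomology and the cubics `T(x, y, z) = 1`, dimension by dimension

Let `k` be a finite field of characteristic `p`, `Λ = ℤ[1/p]`.

* `H V n i`, for the smooth projective schemes `V` over `k`, is the Weil-etale motivic cohomology
  `H^i_W(V, ℤ(n))`.
* `O b m X`, for the separated schemes `X` of finite type over `k`, is the Weil-etale Borel-Moore homology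
  `H_{m + 2 b}^W(X, Λ(b))` of Bloch's complex of cycles of dimension `b`, with coefficients `Λ`; if `X` is smooth of pure
  dimension `n`, this is `H^{2 j - m}_W(X, Λ(j))`, `j = n - b`. (For `j < 0` the complex `Λ(j)` is
  `ℚ/Λ(j)[-1]`, Geisser's convention.)

Let `T` be a trilinear form in three blocks `x`, `y`, `z` of `a₁`, `a₂`, `a₃` variables.

* `bilS T` is the closed subscheme `Z_T` of `𝔸^(a₂ + a₃)` given by the `a₁` bilinear equations
  `∂T/∂x_i (y, z) = 0`;
* `hypS T` is the smooth affine cubic hypersurface `Y_T : T(x, y, z) = 1` of dimension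
  `n = a₁ + a₂ + a₃ - 1`; `O (n - j) m (hypS T)` is `H^{2 j - m}_W(Y_T, Λ(j))`.
-/

set_option autoImplicit false

open CategoryTheory AlgebraicGeometry MvPolynomial Pool.Agent.Y116.UV Pool.Agent.U554.TU
  Pool.Agent.U554.TW Pool.Agent.U554.TD Pool.Agent.U483.GU

universe w

namespace Pool.Agent.Results.MP_cb388a_ag.CubicsByDimension

/-- The module is finitely generated. -/
def FG {Λ : Type} [CommRing Λ] (M : ModuleCat.{w} Λ) : Prop := Module.Finite Λ M

/-- The groups of `X` in all weights and degrees are finitely generated. -/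
def AllFG {k : Type} [Field k] {Λ : Type} [CommRing Λ] (O : ℤ → ℤ → Sch k → ModuleCat.{w} Λ) (X : Sch k) : Prop :=
  ∀ b m : ℤ, FG (O b m X)

/-- The known properties of Weil-etale cohomology over the finite field `k`: the properties `IsAbTheory` of the
Borel-Moore homology (long exact sequences, homotopy invariance, ...) and

* `torsor`: homotopy invariance for affine bundles;
* `jouanolou`: smooth separated schemes of finite type have affine bundles with affine total space
  (Jouanolou, Thomason);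
* `boundary`: the group of `X` in the degree `m` is a direct factor of the group of `X × 𝔾_m` in the degree
  `m + 1` (cup product with the coordinate, boundary at `0`);
* `curves`: the groups `H^i_W(V, ℤ(n))` are finitely generated for smooth projective `V` of dimension at most `1`
  (Lichtenbaum, Harder, Soule, Geisser);
* `all`: if the groups `H^i_W(V, ℤ(n))` of all smooth projective `V` of dimension at most `d` are finitely
  generated, then so are all `O b m X`, `X` of dimension at most `d` (Geisser; de Jong's alterations, transfer,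
  finiteness with finite coefficients);
* `proper`: if all groups with the coefficients `Λ = ℤ[1/p]` of a smooth projective `V` are finitely generated, then
  so are the `H^i_W(V, ℤ(n))` (Geisser: both are equivalent to Tate's, Beilinson's and Parshin's conjectures
  for `V`). -/
structure IsWeilEtale {k : Type} [Field k] {Λ : Type} [CommRing Λ] (H : Sch k → ℕ → ℤ → ModuleCat.{w} ℤ)
    (O : ℤ → ℤ → Sch k → ModuleCat.{w} Λ) : Prop extends IsAbTheory O where
  torsor : BundleInvariant (abRel (ModuleCat.{w} Λ)) O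
  jouanolou : ∀ X : Sch k, FT True X → Smooth X.hom → HasAffineBundle X
  boundary : ∀ (A : Type) [CommRing A] [Algebra k A] [Algebra.FiniteType k A] (b m : ℤ),
    Nonempty (Retract (O b m (aff k A)) (O b (m + 1) (aff k (LaurentPolynomial A))))
  curves : ∀ V : Sch k, SmoothProjective V → topologicalKrullDim V.left ≤ (1 : ℕ) →
    ∀ (n : ℕ) (i : ℤ), FG (H V n i)
  all : ∀ d : ℕ, (∀ V : Sch k, SmoothProjective V → topologicalKrullDim V.left ≤ d →
      ∀ (n : ℕ) (i : ℤ), FG (H V n i)) →
    ∀ X : Sch k, FT True X → topologicalKrullDim X.left ≤ d → AllFG O X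
  proper : ∀ V : Sch k, SmoothProjective V → AllFG O V → ∀ (n : ℕ) (i : ℤ), FG (H V n i)

lemma inherited {Λ : Type} [CommRing Λ] : Inherited (abRel (ModuleCat.{w} Λ)) FG := by
  rintro X Y ⟨r⟩ (hY : Module.Finite Λ Y)
  refine Module.Finite.of_surjective r.r.hom fun x => ⟨r.i.hom x, ?_⟩
  have h : (r.i ≫ r.r).hom x = x := by rw [r.retract]; rfl
  exact h

section

variable {k : Type} [Field k] {Λ : Type} [CommRing Λ] {H : Sch k → ℕ → ℤ → ModuleCat.{w} ℤ}
  {O : ℤ → ℤ → Sch k → ModuleCat.{w} Λ}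

/-- Finite generation for the affine schemes passes to the lower degrees. -/
lemma descend (hO : IsWeilEtale H O) (d : ℕ) (m : ℤ)
    (h : ∀ (A : Type) [CommRing A] [Algebra k A] [Algebra.FiniteType k A] (b : ℤ),
      FG (O b (m + d) (aff k A))) :
    ∀ (A : Type) [CommRing A] [Algebra k A] [Algebra.FiniteType k A] (b : ℤ),
      FG (O b m (aff k A)) := by
  induction d with
  | zero => simpa using h
  | succ d ih =>
    apply ih
    intro A _ _ _ b
    have h2 := hO.boundary A b (m + d)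
    have h3 : Algebra.FiniteType k (LaurentPolynomial A) := ft_laurent A
    have h4 := h (LaurentPolynomial A) b
    rw [show m + ((d + 1 : ℕ) : ℤ) = m + d + 1 from by push_cast; ring] at h4
    exact inherited _ _ h2 h4

/-- From an unbounded set of degrees for the affine schemes to all degrees. -/
lemma all_finite (hO : IsWeilEtale H O) (S : Set ℤ) (hS : ∀ N : ℤ, ∃ n ∈ S, N ≤ n)
    (h : ∀ n ∈ S, ∀ (A : Type) [CommRing A] [Algebra k A] [Algebra.FiniteType k A] (b : ℤ),
      FG (O b (n - 1) (aff k A))) (X : Sch k) (hX : FT True X) (hX' : HasAffineBundle X)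
    (b m : ℤ) : FG (O b m X) := by
  refine bundle_of_affine hO.torsor inherited m ?_ X hX hX' b
  obtain ⟨n, hn, hm⟩ := hS (m + 1)
  exact descend hO (n - 1 - m).toNat m fun A _ _ _ b => by
    rw [show m + ((n - 1 - m).toNat : ℤ) = n - 1 from by omega]
    exact h n hn A b

lemma weight {a₁ a₂ a₃ : ℕ} {T : Fin a₁ → Fin a₂ → Fin a₃ → k} (s : ℕ) :
    (∀ b : ℤ, b + s ≤ a₂ + a₃ → ∀ m : ℤ, FG (O (b + a₁ - 1) m (hypS T))) ↔
      ∀ j : ℕ, s ≤ j → ∀ m : ℤ, FG (O (a₁ + a₂ + a₃ - 1 - j) m (hypS T)) := by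
  constructor
  · intro h j hj m
    have h1 := h (a₂ + a₃ - j) (by omega) m
    rwa [show (a₂ + a₃ - j + a₁ - 1 : ℤ) = a₁ + a₂ + a₃ - 1 - j from by ring] at h1
  · intro h b hb m
    have h1 := h (a₂ + a₃ - b).toNat (by omega) m
    rwa [show (a₁ + a₂ + a₃ - 1 - ((a₂ + a₃ - b).toNat : ℤ) : ℤ) = b + a₁ - 1 from by omega] at h1

end

/-- **Finite generation of Weil-etale cohomology and the cubics `T(x, y, z) = 1`.** Let `k` be a finite field of
characteristic `p`, `Λ = ℤ[1/p]`.

(A) If one of the three blocks of `T` has at most `3` variables (the other two are arbitrary), then all Weil-etale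
groups of `Z_T` and of `Y_T`, with coefficients `Λ`, are finitely generated.

(B) Let `d ≥ 1` and `s` be any numbers. The following are equivalent (and true for `d = 1`):

1. `d = 1`, or the groups `H^i_W(V, ℤ(n))` are finitely generated for all smooth projective `V` of dimension at most
   `d` and all `i`, `n`;
2. all groups `O b m X` are finitely generated for all separated `X` of finite type of dimension at most `d`;
3. the same for all `Z_T` with a block of at most `d + 2` variables, and for all closed subschemes of affine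
   spaces given by equations with `t_1, …, t_c` terms, `∑ max(t_i - 2, 0) ≤ d`;
4. the same for all `Y_T` with a block of at most `d + 2` variables;
5. `H^i_W(Y_T, Λ(j))` is finitely generated for all `i`, all `j ≥ s` and all `T` with exactly `d + 2` variables `y`.

(C) Let `S` be a set of integers which is not bounded above, and `s` a number. The following are equivalent:

1. (Q1 for `k`) the groups `H^i_W(V, ℤ(n))` are finitely generated for all smooth projective `V` and all `i`, `n`;
2. the groups `H^{2 j - n}_W(Y_T, Λ(j))` are finitely generated for all `T`, all `j ≥ s` and all `n` in `S`.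

If `k` is a prime field, the hypersurfaces `∑_{(i, j, k) ∈ G} x_i y_j z_k = 1`, `G` a finite set of triples, are
sufficient in (C) 2. -/
theorem result (k : Type) [Field k] [Finite k] (p : ℕ) [CharP k p] {Λ : Type} [CommRing Λ]
    [IsLocalization.Away (p : ℤ) Λ] (H : Sch k → ℕ → ℤ → ModuleCat.{w} ℤ)
    (O : ℤ → ℤ → Sch k → ModuleCat.{w} Λ) (hO : IsWeilEtale H O) :
    (∀ (a₁ a₂ a₃ : ℕ) (T : Fin a₁ → Fin a₂ → Fin a₃ → k), OneSmall 3 a₁ a₂ a₃ →
      AllFG O (bilS T) ∧ AllFG O (hypS T)) ∧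
    (∀ d : ℕ, 1 ≤ d → ∀ s : ℕ, List.TFAE [
      d = 1 ∨ ∀ V : Sch k, SmoothProjective V → topologicalKrullDim V.left ≤ d →
        ∀ (n : ℕ) (i : ℤ), FG (H V n i),
      ∀ X : Sch k, FT True X → topologicalKrullDim X.left ≤ d → AllFG O X,
      (∀ (a₁ a₂ a₃ : ℕ) (T : Fin a₁ → Fin a₂ → Fin a₃ → k), OneSmall (d + 2) a₁ a₂ a₃ →
        AllFG O (bilS T)) ∧
      ∀ (n : ℕ) (G : Finset (MvPolynomial (Fin n) k)), ∑ g ∈ G, (g.support.card - 2) ≤ d →
        AllFG O (aff k (MvPolynomial (Fin n) k ⧸ Ideal.span (G : Set (MvPolynomial (Fin n) k)))),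
      ∀ (a₁ a₂ a₃ : ℕ) (T : Fin a₁ → Fin a₂ → Fin a₃ → k), OneSmall (d + 2) a₁ a₂ a₃ →
        AllFG O (hypS T),
      ∀ (a₁ a₃ : ℕ) (T : Fin a₁ → Fin (d + 2) → Fin a₃ → k), ∀ j : ℕ, s ≤ j → ∀ m : ℤ,
        FG (O (a₁ + (d + 2) + a₃ - 1 - j) m (hypS T))]) ∧
    ∀ S : Set ℤ, (∀ N : ℤ, ∃ n ∈ S, N ≤ n) → ∀ s : ℕ,
      ((∀ V : Sch k, SmoothProjective V → ∀ (n : ℕ) (i : ℤ), FG (H V n i)) ↔
        ∀ (a₁ a₂ a₃ : ℕ) (T : Fin a₁ → Fin a₂ → Fin a₃ → k) (j : ℕ), s ≤ j → ∀ n ∈ S,
          FG (O (a₁ + a₂ + a₃ - 1 - j) n (hypS T))) ∧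
      (Nonempty (ZMod p ≃+* k) →
        ((∀ V : Sch k, SmoothProjective V → ∀ (n : ℕ) (i : ℤ), FG (H V n i)) ↔
          ∀ (a₁ a₂ a₃ : ℕ) (G : Finset (Fin a₁ × Fin a₂ × Fin a₃)) (j : ℕ), s ≤ j → ∀ n ∈ S,
            FG (O (a₁ + a₂ + a₃ - 1 - j) n (tripS k G)))) := by
  have hN : IsNoetherianRing Λ := IsLocalization.isNoetherianRing (Submonoid.powers (p : ℤ)) Λ inferInstance
  have hT := hO.toIsAbTheory.isTheory
  have hP : IsSerre (FG.{w} (Λ := Λ)) := serre_fg
  have hW : ∀ b ∈ (Set.univ : Set ℤ), ∀ b' ≤ b, b' ∈ (Set.univ : Set ℤ) := fun _ _ _ _ => trivial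
  have hone : ∀ X : Sch k, FT True X → topologicalKrullDim X.left ≤ (1 : ℕ) → AllFG O X :=
    hO.all 1 hO.curves
  have hpt : AllIn FG Set.univ O (aff k k) := by
    intro b _
    refine hone _ (ft_aff True) ?_ b
    rw [Pool.Agent.Z125.UN.topDim_aff, ringKrullDim_eq_zero_of_field]
    exact_mod_cast (by omega : (0 : ℕ) ≤ 1)
  have hS := allIn_sided hP hO.toIsAbTheory hW hpt
  -- the hypersurface
  have hyp : ∀ {a₁ a₂ a₃ : ℕ} (T : Fin a₁ → Fin a₂ → Fin a₃ → k), AllFG O (bilS T) → AllFG O (hypS T) := by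
    intro a₁ a₂ a₃ T h b m
    have h1 := (hyp_iff_bil hP hO.toIsAbTheory hW hpt T (b - a₁ + 1) trivial).mp (h _) m
    rwa [show (b - a₁ + 1 + a₁ - 1 : ℤ) = b from by ring] at h1
  have small : ∀ (d : ℕ), (∀ X : Sch k, FT True X → topologicalKrullDim X.left ≤ d → AllFG O X) →
      ∀ {a₁ a₂ a₃ : ℕ} (T : Fin a₁ → Fin a₂ → Fin a₃ → k), OneSmall (d + 2) a₁ a₂ a₃ → AllFG O (bilS T) :=
    fun d h a₁ a₂ a₃ T ha b => allIn_bil hP hO.toIsAbTheory hW hpt d (fun X hX hd b _ => h X hX hd b) T ha b trivial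
  refine ⟨fun a₁ a₂ a₃ T ha => ?_, fun d hd s => ?_, fun S hSS s => ?_⟩
  · have h2 := small 1 hone T ha
    exact ⟨h2, hyp T h2⟩
  · tfae_have 1 → 2 := by
      rintro (rfl | h1)
      · exact hone
      · exact hO.all d h1
    tfae_have 2 → 1 := fun h1 => Or.inr fun V hV hdim => hO.proper V hV (h1 V hV.ft hdim)
    tfae_have 2 → 3 := by
      intro h1
      refine ⟨fun a₁ a₂ a₃ T ha => small d h1 T ha, fun n G hG b => ?_⟩
      refine complexity hS d (fun A _ _ _ hA => ?_) G hG b trivial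
      intro b _
      refine h1 _ (ft_aff True) ?_ b
      rw [Pool.Agent.Z125.UN.topDim_aff]
      exact hA
    tfae_have 3 → 4 := fun h1 a₁ a₂ a₃ T ha => hyp T (h1.1 a₁ a₂ a₃ T ha)
    tfae_have 4 → 5 := fun h1 a₁ a₃ T j _ m => h1 a₁ (d + 2) a₃ T (Or.inr (Or.inl le_rfl)) _ m
    tfae_have 5 → 2 := by
      intro h1 X hX hdim b m
      refine of_affine_dim hS.toOne (closed_to_dim hS.toOne (n := d) ?_) X hX hdim b trivial m
      intro I c _ m
      obtain ⟨G, hG⟩ := (isNoetherianRing_iff_ideal_fg _).mp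
        (inferInstance : IsNoetherianRing (MvPolynomial (Fin (d + 1)) k)) I
      refine cone_serre hP hO.toIsAbTheory hW hpt hO.boundary (n := d + 1) (by omega) (Ideal.Quotient.mkₐ k I) G
        (Ideal.Quotient.mkₐ_surjective k I) ((Ideal.mk_ker (I := I)).trans hG.symm) (c + s) c trivial
        (fun a₁ a₃ T ha m => ?_) m
      have h2 := h1 a₁ a₃ T (d + 2 + a₃ - c).toNat (by omega) m
      rwa [show (a₁ + (d + 2) + a₃ - 1 - ((d + 2 + a₃ - c).toNat : ℤ) : ℤ) = c + a₁ - 1 from by omega] at h2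
    tfae_finish
  · have hall : (∀ V : Sch k, SmoothProjective V → ∀ (n : ℕ) (i : ℤ), FG (H V n i)) →
        ∀ (A : Type) [CommRing A] [Algebra k A] [Algebra.FiniteType k A], AllFG O (aff k A) := by
      intro h A _ _ _
      obtain ⟨n, φ, hφ⟩ := Algebra.FiniteType.iff_quotient_mvPolynomial''.mp ‹Algebra.FiniteType k A›
      refine hO.all n (fun V hV _ => h V hV) _ (ft_aff True) ?_
      rw [Pool.Agent.Z125.UN.topDim_aff]
      refine (ringKrullDim_le_of_surjective φ.toRingHom hφ).trans ?_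
      rw [MvPolynomial.ringKrullDim_of_isNoetherianRing, ringKrullDim_eq_zero_of_field, zero_add, Nat.card_fin]
    have hy : ∀ (C : Set k), 0 ∈ C → 1 ∈ C → Presents C →
        (∀ (a₁ a₂ a₃ : ℕ) (T : Fin a₁ → Fin a₂ → Fin a₃ → k), (∀ i j l, T i j l ∈ C) →
          ∀ j : ℕ, s ≤ j → ∀ n ∈ S, FG (O (a₁ + a₂ + a₃ - 1 - j) n (hypS T))) →
        ∀ V : Sch k, SmoothProjective V → ∀ (n : ℕ) (i : ℤ), FG (H V n i) := by
      intro C h0 h1 hC h V hV
      refine hO.proper V hV fun b m => ?_
      refine all_finite hO S hSS (fun n hn A _ _ _ b => ?_) V hV.ft (hO.jouanolou V hV.ft hV.smooth) b m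
      refine affine_of_hyp hT inherited h0 h1 hC s (n - 1) (fun a₁ a₂ a₃ T hT' j hj => ?_) A b
      rw [sub_add_cancel]
      exact h a₁ a₂ a₃ T hT' j hj n hn
    refine ⟨⟨fun h a₁ a₂ a₃ T j _ n _ => hall h _ _ _, fun h =>
      hy Set.univ trivial trivial presents_univ fun a₁ a₂ a₃ T _ j hj => h a₁ a₂ a₃ T j hj⟩, ?_⟩
    rintro ⟨e⟩
    have hp : Presents ({0, 1} : Set k) := presents_prime fun x => by
      refine ⟨1, ((e.symm x).cast : ℤ), by simp, ?_⟩
      have h1 : (((e.symm x).cast : ℤ) : ZMod p) = e.symm x := ZMod.intCast_zmod_cast _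
      have h2 := congrArg e h1
      rw [map_intCast, e.apply_symm_apply] at h2
      rw [h2]
      simp
    constructor
    · intro h a₁ a₂ a₃ G j _ n _
      obtain ⟨T, -, hG⟩ := trip_hyp (R := k) G
      rw [← hG]
      exact hall h _ _ _
    · intro h
      refine hy {0, 1} (Or.inl rfl) (Or.inr rfl) hp (fun a₁ a₂ a₃ T hT' j hj => ?_)
      obtain ⟨G, hG⟩ := hyp_zero_one T hT'
      rw [hG]
      exact h a₁ a₂ a₃ G j hj

end Pool.Agent.Results.MP_cb388a_ag.CubicsByDimension
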