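import Pool.Agent.U30.WE.Main

/-!
# Finite generation of the Weil-étale motivic cohomology of products with varieties of Fermat type

Let `κ` be a finite field with `q` elements, of characteristic `p`, and `𝒱` a class of smooth projective
varieties over `κ`, closed under products, with Chow groups `A` with rational coefficients and a Weil
cohomology theory `H` (framework of helper492 and helper484: `TheoryData`, `IsChow`, `IsWeil`). Let `X_i` be
varieties in `𝒱` **of Fermat type** of different prime degrees `N_i` and of lengths at most `s_i`
(`IsFermatType`): the cohomology of `X_i` is generated by the classes of cycles and a subspace `T_i`, stable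
under the Frobenius, such that each eigenvalue of the Frobenius on `T_i` is, up to a root of unity and a
power of `q`, a product `∏_{a ∈ A} g(θ ^ a)` of at most `s_i` Gauss sums over `κ`, where `θ` is a
multiplicative character of `κ` of order `N_i`, and where the multiset `A + p A + ⋯ + p ^ (f - 1) A`, `f` the
order of `p` modulo `N_i`, is not symmetric. For example the diagonal hypersurfaces `∑ x_j ^ N = 0` of any
dimension over `κ`, `N` dividing `p - 1`, and their powers and products are of this form (Weil; Ran, Shioda and
Katsura). Let `Z` be **any** variety in `𝒱`, and suppose that the eigenvalues `β` of Frobenius on `H(Z)` are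
algebraic (theorem of Deligne) and that `Z` satisfies `IsSmallBase`: for all `β` and all `i` there is an `m > 0`
such that the field `F = ℚ(β ^ m) ∩ ℚ(ζ_{N_i})` is real, or `N_i > s_i f_i [F : ℚ] + 1`, or `N_i = 2`. So all prime
numbers `N_i` are allowed with finitely many exceptions, which depend only on the fields `ℚ(β)`. Suppose that
homologically trivial self-correspondences of degree zero of the products `V` are nilpotent (known for
example if `Z` is dominated by a product of curves and the `X_i` are diagonal hypersurfaces: Kimura).

The Weil-étale motivic cohomology groups `H^i_W(X, ℤ(n))` with `i - 2 n = c` are the parts `W^n(X)` of a group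
`W(X)`, for each integer `c` (`GroupTheory`, `cohomology`). Only the following properties are used
(`IsGroupTheory`): correspondences with rational coefficients act on `W` **up to isogeny** (that is, as
homomorphisms with rational coefficients), compatibly with composition and identities, and a
correspondence in `CH^(dim X + j)(X × Y)` maps `W^n(X)` to `W^(n + j)(Y)`; the Frobenius endomorphism of `X` acts on
`W^n(X)` as `q ^ n` (Geisser); the groups for `n < 0` are zero; the subgroups of elements killed by a
positive integer `N` are finite (they are quotients of `H^(i-1)_et(X, ℤ/N(n))`).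

**Theorem.** Let `V` be the product of `Z` and of the `X_i` for `i` in a finite set, and `e = dim V - dim Z`.
* For all `i` and `n` the group `H^i_W(V, ℤ(n))` is finitely generated if and only if the groups
  `H^(i - 2r)_W(Z, ℤ(n - r))` are finitely generated for `0 ≤ r ≤ e`.
* `L^n(V)` is true if and only if `L^(n - r)(Z)` is true for `0 ≤ r ≤ e`.
* `L^n(V)` is true for all `n` if and only if `L^n(Z)` is true for all `n`.

So the answer to the question for `V` is the same as for `Z`. No case of the Tate conjecture for `Z` or for the
products is assumed, and `Z` is arbitrary. For `Z` a point or a curve, `L^n(Z)` is true for all `n`, and we get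
new varieties which satisfy `L^n` for all `n`, for example the products of a curve with diagonal hypersurfaces
`∑ x_j ^ N_i = 0` of any dimensions, of different odd prime degrees `N_i` dividing `p - 1`, unramified in the
fields of the eigenvalues of Frobenius on the cohomology of the curve.

The proof. The Künneth formulas of helper876 (`N876/CG`) and helper231 (`U231/FF`, `U231/FR`) are about rational
theories on which correspondences act, and finite generation is not a property of the rational
groups. We apply them to the theories `X ↦ Hom(D, W(X)) ⊗ ℚ` for **all abelian groups `D`** (`homData`), for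
`D = W^n(V)` to the inclusion of `W^n(V)` (Yoneda). So the inclusion of `W^n(V)` factors up to isogeny through
the groups `W^(n - r)(Z)`, and the other way round; and a subgroup which factors up to isogeny through a finitely
generated group, and whose subgroups of elements of bounded order are finite, is finitely generated
(`U30/WE`).
-/

set_option autoImplicit false

open Polynomial CategoryTheory AlgebraicGeometry

namespace Pool.Agent.Results.MP_cb388a_ag.FermatFactors

open Pool.Agent.H914 Pool.Agent.H914.VarClass Pool.Agent.H914.VarClass.Obj Pool.Agent.W492.BB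
  Pool.Agent.W484.CK Pool.Agent.U231.FF Pool.Agent.U231.FR.Base Pool.Agent.U30.WE

variable {k : Type} [Field k] {𝒱 : VarClass k} {A : TheoryData.{0, 0, 0} 𝒱 ℚ}

/-- The group `H^i_W(X, ℤ(n))`; `G c` consists of the groups with `i - 2 n = c`. -/
def cohomology (G : ℤ → GroupTheory A) (X : 𝒱.Obj) (i n : ℤ) : AddSubgroup ((G (i - 2 * n)).W X) :=
  (G (i - 2 * n)).part X n

/-- `L^n(X)`: the groups `H^i_W(X, ℤ(n))` are finitely generated for all `i`. -/
def Lichtenbaum (G : ℤ → GroupTheory A) (X : 𝒱.Obj) (n : ℤ) : Prop :=
  ∀ i : ℤ, (cohomology G X i n).FG

/-- The conclusions for the product `V` of the `X i` with `i ∈ L` and of `Z`; `dimension X L` is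
`dim V - dim Z`. -/
structure Conclusions {ι : Type} (G : ℤ → GroupTheory A) (X : ι → 𝒱.Obj) (Z : 𝒱.Obj) (L : List ι) :
    Prop where
  groups : ∀ i n : ℤ, (cohomology G (productOf X Z L) i n).FG ↔
    ∀ r : ℕ, r ≤ dimension X L → (cohomology G Z (i - 2 * r) (n - r)).FG
  one_weight : ∀ n : ℤ, Lichtenbaum G (productOf X Z L) n ↔
    ∀ r : ℕ, r ≤ dimension X L → Lichtenbaum G Z (n - r)
  all_weights : (∀ n : ℤ, Lichtenbaum G (productOf X Z L) n) ↔ ∀ n : ℤ, Lichtenbaum G Z n

/-- **Finite generation of Weil-étale motivic cohomology for products of arbitrary varieties with varieties of Fermat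
type of different prime degrees.** -/
theorem result (p : ℕ) [Fact p.Prime] (κ : Type) [Field κ] [Fintype κ] [CharP κ p] {ι : Type}
    (N s : ι → ℕ) {𝒱 : VarClass κ} (A : TheoryData.{0, 0, 0} 𝒱 ℚ) [IsChow A] {K : Type} [Field K]
    [IsAlgClosed K] [CharZero K] (H : WeilTheoryData.{0, 0, 0} A K) [IsWeil H] (τ : K →+* ℂ)
    (F : ∀ X : 𝒱.Obj, X ⟶ X) (X : ι → 𝒱.Obj) (Z : 𝒱.Obj)
    (h : IsFermatSystem p N s H τ F X Z (Polynomial.X - 1))
    (hnil : ∀ L, Nilpotence H (productOf X Z L))
    (G : ℤ → GroupTheory A) (hG : ∀ c, IsGroupTheory (G c) F (Fintype.card κ)) :
    ∀ L : List ι, L.Nodup → Conclusions G X Z L := by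
  intro L hL
  have key : ∀ i n : ℤ, (cohomology G (productOf X Z L) i n).FG ↔
      ∀ r : ℕ, r ≤ dimension X L → (cohomology G Z (i - 2 * r) (n - r)).FG := by
    intro i n
    have h1 := main p κ N s A H τ F X Z h hnil (G (i - 2 * n)) (hG _) L hL n
    unfold cohomology
    rw [h1]
    constructor
    · intro h2 r hr
      have h3 := h2 (n - r) (by omega) (by omega)
      have h4 : i - 2 * (r : ℤ) - 2 * (n - r) = i - 2 * n := by ring
      rw [h4]
      exact h3
    · intro h2 m hm1 hm2
      have h3 := h2 (n - m).toNat (by omega)
      have h4 : ((n - m).toNat : ℤ) = n - m := by omega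
      rw [h4] at h3
      have h5 : i - 2 * (n - m) - 2 * (n - (n - m)) = i - 2 * n := by ring
      have h6 : n - (n - m) = m := by ring
      rw [h5, h6] at h3
      exact h3
  have key2 : ∀ n : ℤ, Lichtenbaum G (productOf X Z L) n ↔
      ∀ r : ℕ, r ≤ dimension X L → Lichtenbaum G Z (n - r) := by
    intro n
    constructor
    · intro h1 r hr i
      have h2 := (key (i + 2 * r) n).1 (h1 _) r hr
      rw [add_sub_cancel_right] at h2
      exact h2
    · intro h1 i
      rw [key]
      intro r hr
      exact h1 r hr _
  refine ⟨key, key2, ⟨fun h1 n => ?_, fun h1 n => (key2 n).2 fun r _ => h1 _⟩⟩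
  have h2 := (key2 n).1 (h1 n) 0 (Nat.zero_le _)
  rw [Nat.cast_zero, sub_zero] at h2
  exact h2

end Pool.Agent.Results.MP_cb388a_ag.FermatFactors
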