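import Pool.Agent.U226.FX.Gen

/-!
# The size of the rational Weil-étale motivic cohomology of `Z × X ^ l`

Let `X` be ANY nonempty smooth projective variety over `F_q`, `b` its total Betti number, `Z` any smooth
projective variety over `F_q`, `ρ (l)` the rank of the group of cycles on `X ^ l` modulo numerical
equivalence. For an integer `c` and a variety `Y` let

  `F_c (Y) = ⨁_n H^(2 n + c)_W (Y, ℚ(n))`.

Finite generation of the Weil-étale cohomology `H^i_W (Y, ℤ(n))` implies that `F_c (Y)` is finite-dimensional;
by the conjecture `L^n` (and Geisser's results) one expects `F_c (Y) = 0` for `c ≠ 0, 1`, and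
`dim F_0 (Y) = dim F_1 (Y) = ρ_Y`, the rank of the cycles modulo numerical equivalence. For `Y` the point
this is known: `F_0 (pt) = F_1 (pt) = ℚ`, and `F_c (pt) = 0` for `c ≠ 0, 1` (Quillen).

Theorem (for each `c`).
(1) (Law.) `dim F_c (Z × X ^ l) / ρ (l)` converges, for `l → ∞`, to a natural number or to infinity; the
limit is zero if and only if `F_c (Z × X ^ l) = 0` for all `l`.
(2) (Gap.) If `F_c (Z × X ^ m) ≠ 0` (for some `c ≠ 0, 1` this contradicts the question) then for ALL
`l ≥ 128 (m + 1) ^ 2 b ^ (2 m + 6)`

  `dim F_c (Z × X ^ l) ≥ ρ (l) / 2`  and  `dim F_c (Z × X ^ (2 l)) ≥ b ^ (2 l) / (2 (l + 1) ^ (b ^ 2))`.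

(3) (Tate and boundedness imply finiteness.) Suppose `dim F_c (X ^ l) ≤ C ρ (l)` for infinitely many `l` and
some constant `C`. Let the strong form of the conjecture of Tate hold for ONE power `X ^ l` in ONE codimension
`n`: the multiplicity of `q ^ n` as an eigenvalue of the Frobenius on the cohomology of `X ^ l` is the rank
`ρ_n (X ^ l)` of the cycles of codimension `n` modulo numerical equivalence. Then

  **`H^(2 n + c)_W (X ^ l, ℚ(n)) ≅ F_c (pt) ^ (ρ_n (X ^ l))`,**

so it is finite-dimensional: of dimension `ρ_n (X ^ l)` for `c = 0, 1`, zero for `c ≠ 0, 1`. For `c = 0` this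
contains the equality of rational and numerical equivalence in codimension `n` on `X ^ l`.

So the whole structure of the rational Weil-étale cohomology of weight `n` follows from a weak bound for its
size on the powers and the conjecture of Tate in codimension `n`. It applies for example to `l = 1`,
`X` a K3 surface or a cubic fourfold, where the conjecture of Tate is known. No assumption is made on other
codimensions or powers. The case of functors which vanish on the point is `MP_27fd67_ag.ParshinLaw`
(Parshin's conjecture); known: the conjectures of Tate and Beilinson in codimensions `n` and `d - n` imply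
`L^n (X)` (Geisser).

The setting. `C` is the category of Chow motives over `F_q` with the correspondences of all degrees as
morphisms, a rigid symmetric monoidal category; `T = h(X)` is self-dual, `tp T l = h(X ^ l)`,
`B = h(Z)`, `R` is the `ℓ`-adic cohomology with coefficients extended to an algebraic closure; `C⁺` is known
for all `X` (Katz and Messing). `F = F_c` is an additive functor on `C`: a correspondence of degree `e` maps
`H^i_W (Y, ℚ(n))` to `H^(i + 2 e)_W (Y', ℚ(n + e))`. `φ` is the Frobenius of `X ^ l`, `r = q ^ n`,
`eigen φ r` is the space of the cycles of codimension `n`, and `eigF F φ r` is `H^(2 n + c)_W (X ^ l, ℚ(n))`,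
since the Frobenius acts on rational motivic cohomology of weight `n` as `q ^ n`. `PowerLaw` is (1) for
`Z = pt` and (3), `ProductLaw` is (1) and (2) for `Z`.

Idea of the proof. (1) and (2) are the law of the values of additive functors on the powers of `X` (starting
library `N64.AF`) for `Y ↦ F_c (Z × Y)`. For (3): if the limit is finite then numerically trivial
correspondences act on `F_c (X ^ l)` in a nilpotent way. There is a polynomial `e` with `e (q ^ n) = 1` such
that `ε = e (φ)` is the projector to the generalised eigenspace of `q ^ n` on the cohomology. By the conjecture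
of Tate this space is spanned by the classes of cycles `β_j`; let `γ_j` be dual cycles, `p = ∑ γ_j ≫ β_j`.
Then `ε - p` is homologically trivial, and it acts on the eigenspace as the idempotent `1 - p`, which is
therefore zero. So `x = ∑ β_j γ_j x`, and `y ↦ ∑ β_j y_j` is an isomorphism.
-/

set_option autoImplicit false

open CategoryTheory MonoidalCategory Module Filter Topology
open Pool.Agent.Y112.SR Pool.Agent.Y112.KD Pool.Agent.N64.AF Pool.Agent.U226.FX
open Pool.Agent.U724.FF
open scoped ENNReal

namespace Pool.Agent.Results.MP_cb388a_ag.WeilEtaleLaw

universe v u w t x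

/-- The law for an additive functor `F` on the products of a fixed arbitrary `B` with the powers of `T`, and
the structure of the eigenspaces of the Frobenius on its values under the strong form of the
conjecture of Tate and a bound for its size. -/
theorem result {C : Type u} [Category.{v} C] [Preadditive C] [MonoidalCategory C]
    [MonoidalPreadditive C] [SymmetricCategory C] [RightRigidCategory C]
    {Λ : Type t} [Field Λ] [CharZero Λ] [Linear Λ C] [MonoidalLinear Λ C]
    {K : Type w} [Field K] [IsAlgClosed K] [Algebra Λ K] (R : SuperRealisation C K)
    (T : C) [ExactPairing T T] (h : IsPow Λ R T) (F : C ⥤ ModuleCat.{x} Λ)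
    [F.Additive] [F.Linear Λ] : PowerLaw R T F ∧ ∀ B : C, ProductLaw R T F B :=
  eig_law h F

end Pool.Agent.Results.MP_cb388a_ag.WeilEtaleLaw
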